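import Pool.Agent.AOI.Defs

/-!
# TWA: algebra of flattening ranks
-/

set_option autoImplicit false

namespace Pool.Agent.AOI

open MvPolynomial

variable {K : Type*} [Field K] {n : ℕ} {S : Finset (Fin n)}

private theorem ca_add {w w' : ℕ} {f g : MvPolynomial (Fin n) K} (hf : Cut w S f)
    (hg : Cut w' S g) : Cut (w + w') S (f + g) := by
  obtain ⟨a, b, ha, hb, rfl⟩ := hf
  obtain ⟨a', b', ha', hb', rfl⟩ := hg
  refine ⟨Fin.append a a', Fin.append b b', fun k => ?_, fun k => ?_, ?_⟩
  · refine Fin.addCases (fun i => ?_) (fun i => ?_) k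
    · rw [Fin.append_left]
      exact ha i
    · rw [Fin.append_right]
      exact ha' i
  · refine Fin.addCases (fun i => ?_) (fun i => ?_) k
    · rw [Fin.append_left]
      exact hb i
    · rw [Fin.append_right]
      exact hb' i
  · rw [Fin.sum_univ_add]
    simp only [Fin.append_left, Fin.append_right]

private theorem ca_zero (w : ℕ) : Cut w S (0 : MvPolynomial (Fin n) K) := by
  refine ⟨fun _ => 0, fun _ => 0, fun k => ?_, fun k => ?_, ?_⟩
  · rw [vars_0]
    exact Finset.empty_subset _
  · rw [vars_0]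
    exact Finset.empty_subset _
  · simp

private theorem ca_vars_mul {T : Finset (Fin n)} {p q : MvPolynomial (Fin n) K}
    (hp : p.vars ⊆ T) (hq : q.vars ⊆ T) : (p * q).vars ⊆ T :=
  (vars_mul p q).trans (Finset.union_subset hp hq)

theorem Cut.mono {w w' : ℕ} {f : MvPolynomial (Fin n) K} (h : Cut w S f) (hw : w ≤ w') :
    Cut w' S f := by
  obtain ⟨r, rfl⟩ := Nat.exists_eq_add_of_le hw
  have h1 := ca_add h (ca_zero r)
  rwa [add_zero] at h1

theorem Cut.zero (w : ℕ) : Cut w S (0 : MvPolynomial (Fin n) K) := by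
  exact ca_zero w

theorem Cut.one : Cut 1 S (1 : MvPolynomial (Fin n) K) := by
  refine ⟨fun _ => 1, fun _ => 1, fun k => ?_, fun k => ?_, ?_⟩
  · rw [vars_one]
    exact Finset.empty_subset _
  · rw [vars_one]
    exact Finset.empty_subset _
  · simp

theorem Cut.X (i : Fin n) : Cut 1 S (X i : MvPolynomial (Fin n) K) := by
  by_cases hi : i ∈ S
  · refine ⟨fun _ => MvPolynomial.X i, fun _ => 1, fun k => ?_, fun k => ?_, ?_⟩
    · rw [vars_X]
      exact Finset.singleton_subset_iff.2 hi
    · rw [vars_one]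
      exact Finset.empty_subset _
    · simp
  · refine ⟨fun _ => 1, fun _ => MvPolynomial.X i, fun k => ?_, fun k => ?_, ?_⟩
    · rw [vars_one]
      exact Finset.empty_subset _
    · rw [vars_X]
      exact Finset.singleton_subset_iff.2 (Finset.mem_compl.2 hi)
    · simp

theorem Cut.C_mul {w : ℕ} {f : MvPolynomial (Fin n) K} (h : Cut w S f) (c : K) :
    Cut w S (C c * f) := by
  obtain ⟨a, b, ha, hb, rfl⟩ := h
  refine ⟨a, fun k => C c * b k, ha, fun k => ?_, ?_⟩
  · refine ca_vars_mul ?_ (hb k)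
    rw [vars_C]
    exact Finset.empty_subset _
  · rw [Finset.mul_sum]
    refine Finset.sum_congr rfl fun k _ => ?_
    ring

theorem Cut.add {w w' : ℕ} {f g : MvPolynomial (Fin n) K} (hf : Cut w S f) (hg : Cut w' S g) :
    Cut (w + w') S (f + g) := by
  exact ca_add hf hg

theorem Cut.mul {w w' : ℕ} {f g : MvPolynomial (Fin n) K} (hf : Cut w S f) (hg : Cut w' S g) :
    Cut (w * w') S (f * g) := by
  obtain ⟨a, b, ha, hb, rfl⟩ := hf
  obtain ⟨a', b', ha', hb', rfl⟩ := hg
  refine ⟨fun k => a (finProdFinEquiv.symm k).1 * a' (finProdFinEquiv.symm k).2,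
    fun k => b (finProdFinEquiv.symm k).1 * b' (finProdFinEquiv.symm k).2,
    fun k => ca_vars_mul (ha _) (ha' _), fun k => ca_vars_mul (hb _) (hb' _), ?_⟩
  rw [finProdFinEquiv.symm.sum_comp (fun p : Fin w × Fin w' =>
    a p.1 * a' p.2 * (b p.1 * b' p.2)), Fintype.sum_prod_type, Finset.sum_mul_sum]
  refine Finset.sum_congr rfl fun k _ => Finset.sum_congr rfl fun l _ => ?_
  ring

theorem Cut.sum {ι : Type*} (t : Finset ι) {w : ℕ} (f : ι → MvPolynomial (Fin n) K)
    (h : ∀ j ∈ t, Cut w S (f j)) : Cut (t.card * w) S (∑ j ∈ t, f j) := by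
  classical
  induction t using Finset.induction_on with
  | empty =>
    rw [Finset.sum_empty]
    exact ca_zero _
  | insert j t hj ih =>
    rw [Finset.sum_insert hj, Finset.card_insert_of_notMem hj]
    have h1 := ca_add (h j (Finset.mem_insert_self j t))
      (ih fun i hi => h i (Finset.mem_insert_of_mem hi))
    have h2 : (t.card + 1) * w = w + t.card * w := by ring
    rw [h2]
    exact h1

theorem Cut.prod {ι : Type*} (t : Finset ι) {w : ℕ} (f : ι → MvPolynomial (Fin n) K)
    (h : ∀ j ∈ t, Cut w S (f j)) : Cut (w ^ t.card) S (∏ j ∈ t, f j) := by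
  classical
  induction t using Finset.induction_on with
  | empty =>
    rw [Finset.prod_empty, Finset.card_empty, pow_zero]
    exact Cut.one
  | insert j t hj ih =>
    rw [Finset.prod_insert hj, Finset.card_insert_of_notMem hj]
    have h1 := (h j (Finset.mem_insert_self j t)).mul
      (ih fun i hi => h i (Finset.mem_insert_of_mem hi))
    have h2 : w ^ (t.card + 1) = w * w ^ t.card := by ring
    rw [h2]
    exact h1

theorem Cut.det {M w : ℕ} (A : Matrix (Fin M) (Fin M) (MvPolynomial (Fin n) K))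
    (h : ∀ i j, Cut w S (A i j)) : Cut (M.factorial * w ^ M) S A.det := by
  classical
  rw [Matrix.det_apply']
  have h1 := Cut.sum (S := S) (Finset.univ : Finset (Equiv.Perm (Fin M))) (w := w ^ M)
    (fun σ => ((Equiv.Perm.sign σ : ℤ) : MvPolynomial (Fin n) K) * ∏ i, A (σ i) i) (by
      intro σ _
      have h2 := Cut.prod (S := S) (Finset.univ : Finset (Fin M)) (fun i => A (σ i) i)
        fun i _ => h (σ i) i
      rw [Finset.card_univ, Fintype.card_fin] at h2
      have h3 : ((Equiv.Perm.sign σ : ℤ) : MvPolynomial (Fin n) K) =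
          C ((Equiv.Perm.sign σ : ℤ) : K) := (map_intCast (C : K →+* MvPolynomial (Fin n) K) _).symm
      rw [h3]
      exact h2.C_mul _)
  rwa [Finset.card_univ, Fintype.card_perm, Fintype.card_fin] at h1

end Pool.Agent.AOI
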