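import Pool.Agent.TWA.Defs
import Pool.Agent.AOI.Card

/-!
# TWA: the number of base points
-/

set_option autoImplicit false

namespace Pool.Agent.TWA

open Pool.Agent.AOI Pool.Agent.Helper8.Occ

theorem card_basePts (n w P d : ℕ) (hP : 1 ≤ P) (hw : 1 ≤ w) :
    (basePts n w P d).card ≤
      (n * d + 1) * ((n + 1) ^ 7 * (2 * (w * (P * n + 1))) ^ (400 * P)) := by
  unfold basePts
  refine Finset.card_image_le.trans ?_
  rw [Finset.card_product, Finset.card_range]
  refine Nat.mul_le_mul_left _ (card_points n P (w * (P * n + 1)) hP ?_)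
  exact Nat.one_le_iff_ne_zero.2 (Nat.mul_ne_zero (by omega) (Nat.succ_ne_zero _))

theorem card_baseW (n κ k w P d Δ : ℕ) : (baseW n κ k w P d Δ).card ≤ sizeW n κ k w P d Δ := by
  unfold baseW sizeW
  refine card_basePts n _ _ _ (Nat.one_le_pow _ _ (Nat.succ_pos _)) ?_
  exact Nat.one_le_iff_ne_zero.2 (Nat.mul_ne_zero (Nat.factorial_ne_zero _)
    (pow_ne_zero _ (Nat.succ_ne_zero _)))

end Pool.Agent.TWA
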