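import Pool.Agent.TWA.Fin

/-!
# TWA: two special cases

* polynomials of individual degree at most `d` all of whose flattenings have rank at most `w`
  (read-once programs in any order);
* polynomials in products of formulas over sparse leaves.
-/

set_option autoImplicit false

namespace Pool.Agent.TWA

open MvPolynomial Pool.Agent.AOI Pool.Agent.Helper8.Occ

variable {n : ℕ}

/-- A sum of at most `s` monomials has flattening ranks at most `s`. -/
theorem cuts_of_card {K : Type*} [Field K] {s : ℕ} (g : MvPolynomial (Fin n) K)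
    (h : g.support.card ≤ s) : Cuts s g := by
  intro S
  have h1 : ∀ m : Fin n →₀ ℕ, ∀ a : K, Cut 1 S (monomial m a) := by
    intro m a
    refine ⟨fun _ => monomial (m.filter (· ∈ S)) a, fun _ => monomial (m.filter (· ∉ S)) 1,
      fun _ => ?_, fun _ => ?_, ?_⟩
    · intro i hi
      by_contra hc
      have h2 : i ∈ (monomial (m.filter (· ∈ S)) a).vars := hi
      rw [mem_vars] at h2
      obtain ⟨b, hb, hib⟩ := h2
      have h3 := Finset.mem_singleton.1 (support_monomial_subset hb)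
      rw [h3, Finsupp.mem_support_iff, Finsupp.filter_apply_neg _ _ hc] at hib
      exact hib rfl
    · intro i hi
      rw [Finset.mem_compl]
      intro hc
      have h2 : i ∈ (monomial (m.filter (· ∉ S)) (1 : K)).vars := hi
      rw [mem_vars] at h2
      obtain ⟨b, hb, hib⟩ := h2
      have h3 := Finset.mem_singleton.1 (support_monomial_subset hb)
      rw [h3, Finsupp.mem_support_iff, Finsupp.filter_apply, if_neg (not_not.2 hc)] at hib
      exact hib rfl
    · rw [Fin.sum_univ_one, monomial_mul, mul_one, Finsupp.filter_add_filter_not]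
  have h2 := Cut.sum (S := S) g.support (w := 1) (fun m => monomial m (coeff m g))
    fun m _ => h1 m _
  rw [mul_one, ← g.as_sum] at h2
  exact h2.mono h

theorem sparseLeaf_ao {k s P d : ℕ} {g : MvPolynomial (Fin n) ℚ} (h : SparseLeaf n k s P d g) :
    AOLeaf n k s P d g :=
  ⟨cuts_of_card g h.1, h.2.1, h.2.2⟩

theorem occ_mono {κ : ℕ} {L L' : MvPolynomial (Fin n) ℚ → Prop} (hL : ∀ g, L g → L' g) {Δ : ℕ}
    {g : MvPolynomial (Fin n) ℚ} (h : OccFormula κ L Δ g) : OccFormula κ L' Δ g := by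
  induction h with
  | leaf hf => exact .leaf (hL _ hf)
  | sum b _ hκ ih => exact .sum b ih hκ
  | prod b _ hκ e ih => exact .prod b ih hκ e
  | comp b _ hm p ih => exact .comp b ih hm p

/-- The class of OccurTopFanin. -/
theorem hit_sparse_W {κ k s P d Δ A R : ℕ} (hk : 1 ≤ k) (p : ℕ → Fin n → ℕ)
    (hp : ∀ x ∈ baseW n κ k s P d Δ, ∃ a < A, p a = x) {N m : ℕ} (a : Fin N → ℚ)
    (g : Fin N → Fin m → MvPolynomial (Fin n) ℚ) (e : Fin N → Fin m → ℕ)
    (hg : ∀ i j, OccFormula κ (SparseLeaf n k s P d) Δ (g i j))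
    (htr : ∀ b : Finset (Fin N),
      AlgebraicIndepOn ℚ (fun i => ∏ j, g i j ^ e i j) (b : Set (Fin N)) → b.card ≤ k)
    (h0 : ∑ i, C (a i) * ∏ j, g i j ^ e i j ≠ 0)
    (f : MvPolynomial (Fin n) ℚ) (hf : f ∣ ∑ i, C (a i) * ∏ j, g i j ^ e i j)
    (hR : (A + n) * f.totalDegree ≤ R ∨
      2 ^ (N + 1) * ((A + n) * ∑ i, ∑ j, (g i j).totalDegree) + N ≤ R) :
    ∃ x ∈ hitW n A (seeds κ k P Δ) R p, eval x f ≠ 0 := by
  refine hit_W hk p hp g e (fun i j => occ_mono (fun _ h => sparseLeaf_ao h) (hg i j)) htr _ ?_ h0 f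
    hf (hR.imp_right fun h => ⟨⟨a, rfl⟩, h⟩)
  refine Subalgebra.sum_mem _ fun i _ => Subalgebra.mul_mem _ ?_
    (Algebra.subset_adjoin (Set.mem_range_self i))
  exact Subalgebra.algebraMap_mem _ (a i)

/-- The class of AnyOrderROABP (over `ℚ`). -/
theorem hit_any_order_W {w d A R : ℕ} (p : ℕ → Fin n → ℕ)
    (hp : ∀ x ∈ baseW n 0 1 w (d + 1) d 0, ∃ a < A, p a = x)
    (f : MvPolynomial (Fin n) ℚ) (hf : f ≠ 0) (hd : ∀ i, f.degreeOf i ≤ d) (hw : Cuts w f)
    (hR : (A + n) * f.totalDegree ≤ R) :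
    ∃ x ∈ hitW n A (seeds 0 1 (d + 1) 0) R p, eval x f ≠ 0 := by
  classical
  have hleaf : AOLeaf n 1 w (d + 1) d f := by
    refine ⟨hw, fun J => ?_, hd⟩
    have h1 : (f.support.image fun (m : Fin n →₀ ℕ) (j : Fin 1) => m (J j)) ⊆
        (Finset.range (d + 1)).image fun l => fun _ : Fin 1 => l := by
      intro y hy
      obtain ⟨m, hm, rfl⟩ := Finset.mem_image.1 hy
      refine Finset.mem_image.2 ⟨m (J 0), Finset.mem_range.2 (Nat.lt_succ_of_le
        ((monomial_le_degreeOf (J 0) hm).trans (hd _))), ?_⟩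
      funext j
      rw [Subsingleton.elim j 0]
    refine (Finset.card_le_card h1).trans (Finset.card_image_le.trans ?_)
    rw [Finset.card_range]
  refine hit_W (N := 1) (m := 1) (κ := 0) (Δ := 0) le_rfl p hp (fun _ _ => f) (fun _ _ => 1)
    (fun _ _ => .leaf hleaf) (fun b _ => ?_) f ?_ hf f dvd_rfl (Or.inl hR)
  · exact (Finset.card_le_univ b).trans (by simp)
  · refine Algebra.subset_adjoin ⟨0, ?_⟩
    simp

end Pool.Agent.TWA
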