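import Pool.Agent.TWA.Defs
import Pool.Agent.Helper5.Gen

/-!
# TWA: the curve through finitely many points
-/

set_option autoImplicit false

namespace Pool.Agent.TWA

open MvPolynomial

variable {n : ℕ}

/-- `y ∑_{a<A} p_a(i) ∏_{b<A, b≠a} (v - b)`; `y = X 0`, `v = X 1`. -/
noncomputable def crv (A : ℕ) (p : ℕ → Fin n → ℕ) (i : Fin n) : MvPolynomial (Fin 2) ℚ :=
  X 0 * ∑ a ∈ Finset.range A, C (p a i : ℚ) *
    ∏ b ∈ (Finset.range A).erase a, (X 1 - C (b : ℚ))

theorem totalDegree_crv (A : ℕ) (p : ℕ → Fin n → ℕ) (i : Fin n) :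
    (crv A p i).totalDegree ≤ A := by
  unfold crv
  rcases Nat.eq_zero_or_pos A with h0 | hA
  · subst h0
    simp
  · refine (totalDegree_mul _ _).trans ?_
    have h1 : (X 0 : MvPolynomial (Fin 2) ℚ).totalDegree = 1 := totalDegree_X 0
    have h2 : (∑ a ∈ Finset.range A, C (p a i : ℚ) *
        ∏ b ∈ (Finset.range A).erase a, (X 1 - C (b : ℚ)) : MvPolynomial (Fin 2) ℚ).totalDegree ≤
        A - 1 := by
      refine totalDegree_finsetSum_le fun a ha => ?_
      refine (totalDegree_mul _ _).trans ?_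
      rw [totalDegree_C, Nat.zero_add]
      refine (totalDegree_finset_prod _ _).trans ?_
      refine (Finset.sum_le_card_nsmul _ _ 1 fun b _ => ?_).trans ?_
      · refine (totalDegree_sub _ _).trans (max_le (totalDegree_X 1).le ?_)
        rw [totalDegree_C]
        exact Nat.zero_le _
      · rw [Finset.card_erase_of_mem ha, Finset.card_range, smul_eq_mul, mul_one]
    rw [h1]
    omega

theorem aeval_crv {A a : ℕ} (ha : a < A) (p : ℕ → Fin n → ℕ) (f : MvPolynomial (Fin n) ℚ)
    (h : eval (fun i => ((p a i : ℕ) : ℚ)) f ≠ 0) : aeval (crv A p) f ≠ 0 := by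
  intro h0
  apply h
  set D : ℚ := ∏ b ∈ (Finset.range A).erase a, ((a : ℚ) - (b : ℚ)) with hD
  have hD0 : D ≠ 0 := by
    rw [hD, Finset.prod_ne_zero_iff]
    intro b hb
    rw [sub_ne_zero]
    exact fun hab => (Finset.ne_of_mem_erase hb) (Nat.cast_injective hab).symm
  have h1 : ∀ i, eval ![D⁻¹, (a : ℚ)] (crv A p i) = (p a i : ℚ) := by
    intro i
    unfold crv
    rw [map_mul, eval_X, map_sum, Finset.sum_eq_single a]
    · rw [map_mul, eval_C, map_prod]
      have h2 : ∏ b ∈ (Finset.range A).erase a, (eval ![D⁻¹, (a : ℚ)]) (X 1 - C (b : ℚ)) = D := by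
        rw [hD]
        refine Finset.prod_congr rfl fun b _ => ?_
        rw [map_sub, eval_X, eval_C]
        rfl
      rw [h2]
      change D⁻¹ * ((p a i : ℚ) * D) = _
      field_simp
    · intro c hc hca
      rw [map_mul, map_prod, Finset.prod_eq_zero (i := a), mul_zero]
      · exact Finset.mem_erase.2 ⟨hca.symm, Finset.mem_range.2 ha⟩
      · rw [map_sub, eval_X, eval_C]
        exact sub_self _
    · intro hc
      exact absurd (Finset.mem_range.2 ha) hc
  have h2 := congrArg (eval ![D⁻¹, (a : ℚ)]) h0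
  have h3 : eval ![D⁻¹, (a : ℚ)] (aeval (crv A p) f) =
      eval (fun i => eval ![D⁻¹, (a : ℚ)] (crv A p i)) f := by
    rw [aeval_def, ← coe_eval₂Hom, ← RingHom.comp_apply]
    refine congrFun (congrArg DFunLike.coe (MvPolynomial.ringHom_ext (fun c => ?_) fun i => ?_)) f
    · simp
    · simp
  rw [h3, map_zero] at h2
  rw [← h2]
  exact congrArg (fun q => eval q f) (funext fun i => (h1 i).symm)

/-- The coordinate polynomials of the full generator. -/
noncomputable def full (n A c : ℕ) (p : ℕ → Fin n → ℕ) (v : Fin n) :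
    MvPolynomial (Fin 2 ⊕ (Fin c ⊕ Fin c)) ℚ :=
  rename Sum.inl (crv A p v) + rename Sum.inr (Pool.Agent.Helper5.genPoly n c v)

end Pool.Agent.TWA
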