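import Pool.Agent.TWA.CutA
import Pool.Agent.Helper7.T1.Local

/-!
# TWA: local operators keep flattening ranks
-/

set_option autoImplicit false

namespace Pool.Agent.AOI

open MvPolynomial

variable {K : Type*} [Field K] {n : ℕ} {S : Finset (Fin n)}

private theorem cutb_sup {L : MvPolynomial (Fin n) K →ₗ[K] MvPolynomial (Fin n) K}
    {T : Finset (Fin n)} (hL : ∀ (m : Fin n →₀ ℕ) (a : K), m.support ⊆ T →
      (L (monomial m a)).vars ⊆ T) {g : MvPolynomial (Fin n) K} (hg : g.vars ⊆ T) :
    (L g).vars ⊆ T := by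
  classical
  have h1 : L g = ∑ m ∈ g.support, L (monomial m (coeff m g)) := by
    rw [← map_sum, ← g.as_sum]
  have h2 : L g ∈ supported K (T : Set (Fin n)) := by
    rw [h1]
    refine (supported K _).sum_mem fun m hm => ?_
    rw [mem_supported]
    exact_mod_cast hL m _ fun i hi => hg ((mem_vars i).2 ⟨m, hm, hi⟩)
  rw [mem_supported] at h2
  exact_mod_cast h2

private theorem cutb_two {ι : Type*} (I : Finset ι)
    {L : MvPolynomial (Fin n) K →ₗ[K] MvPolynomial (Fin n) K}
    {E F : ι → MvPolynomial (Fin n) K →ₗ[K] MvPolynomial (Fin n) K} {g h : MvPolynomial (Fin n) K}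
    (hg : g.vars ⊆ S) (hh : h.vars ⊆ Sᶜ)
    (hL : ∀ (m m' : Fin n →₀ ℕ) (a b : K), m.support ⊆ S → m'.support ⊆ Sᶜ →
      L (monomial (m + m') (a * b)) = ∑ i ∈ I, E i (monomial m a) * F i (monomial m' b)) :
    L (g * h) = ∑ i ∈ I, E i g * F i h := by
  classical
  have h1 : L (g * h) = ∑ m ∈ g.support, ∑ m' ∈ h.support,
      L (monomial m (coeff m g) * monomial m' (coeff m' h)) := by
    have e : g * h = ∑ m ∈ g.support, ∑ m' ∈ h.support,
        monomial m (coeff m g) * monomial m' (coeff m' h) := by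
      rw [← Finset.sum_mul_sum, ← g.as_sum, ← h.as_sum]
    rw [e, map_sum]
    exact Finset.sum_congr rfl fun m _ => map_sum _ _ _
  have h2 : ∀ i, E i g * F i h = ∑ m ∈ g.support, ∑ m' ∈ h.support,
      E i (monomial m (coeff m g)) * F i (monomial m' (coeff m' h)) := by
    intro i
    rw [← Finset.sum_mul_sum, ← map_sum, ← map_sum, ← g.as_sum, ← h.as_sum]
  rw [h1]
  simp only [h2]
  rw [Finset.sum_comm (s := I)]
  refine Finset.sum_congr rfl fun m hm => ?_
  rw [Finset.sum_comm]
  refine Finset.sum_congr rfl fun m' hm' => ?_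
  rw [monomial_mul]
  exact hL m m' _ _ (fun i hi => hg ((mem_vars i).2 ⟨m, hm, hi⟩))
    (fun i hi => hh ((mem_vars i).2 ⟨m', hm', hi⟩))

private theorem cutb_vmon {T : Finset (Fin n)} {m : Fin n →₀ ℕ} (hm : m.support ⊆ T) (a : K) :
    (monomial m a : MvPolynomial (Fin n) K).vars ⊆ T := by
  by_cases ha : a = 0
  · rw [ha, monomial_zero, vars_0]
    exact Finset.empty_subset _
  · rw [vars_monomial ha]
    exact hm

private theorem cutb_pd {T : Finset (Fin n)} (v : Fin n) {g : MvPolynomial (Fin n) K}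
    (hg : g.vars ⊆ T) : (MvPolynomial.pderiv v g).vars ⊆ T := by
  refine cutb_sup (L := (MvPolynomial.pderiv v).toLinearMap) (fun m a hm => ?_) hg
  show (MvPolynomial.pderiv v (monomial m a)).vars ⊆ T
  rw [pderiv_monomial]
  refine cutb_vmon ((Finsupp.support_mono tsub_le_self).trans hm) _

private theorem cutb_hcm (k : ℕ) (m : Fin n →₀ ℕ) (a : K) :
    homogeneousComponent k (monomial m a : MvPolynomial (Fin n) K) =
      if m.degree = k then monomial m a else 0 := by
  classical
  ext d
  rw [coeff_homogeneousComponent]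
  by_cases h : m.degree = k
  · rw [if_pos h]
    by_cases hd : d = m
    · subst hd
      rw [if_pos h]
    · rw [coeff_monomial, if_neg (Ne.symm hd)]
      simp
  · rw [if_neg h]
    by_cases hd : d = m
    · subst hd
      rw [if_neg h]
      simp
    · rw [coeff_monomial, if_neg (Ne.symm hd)]
      simp

private theorem cutb_hc {T : Finset (Fin n)} (k : ℕ) {g : MvPolynomial (Fin n) K}
    (hg : g.vars ⊆ T) : (homogeneousComponent k g).vars ⊆ T := by
  refine cutb_sup (fun m a hm => ?_) hg
  rw [cutb_hcm]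
  split_ifs
  · exact cutb_vmon hm a
  · rw [vars_0]
    exact Finset.empty_subset _

private theorem cutb_hmul (k : ℕ) {g h : MvPolynomial (Fin n) K} (hg : g.vars ⊆ S)
    (hh : h.vars ⊆ Sᶜ) : homogeneousComponent k (g * h) =
      ∑ a ∈ Finset.range (k + 1), homogeneousComponent a g * homogeneousComponent (k - a) h := by
  refine cutb_two (Finset.range (k + 1)) (E := fun a => homogeneousComponent a)
    (F := fun a => homogeneousComponent (k - a)) hg hh fun m m' a b _ _ => ?_
  simp only [cutb_hcm]
  have hdeg : (m + m').degree = m.degree + m'.degree := map_add _ _ _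
  rw [hdeg]
  by_cases hk : m.degree + m'.degree = k
  · rw [if_pos hk, Finset.sum_eq_single m.degree]
    · rw [if_pos rfl, if_pos (by omega), monomial_mul]
    · intro j _ hj
      rw [if_neg (Ne.symm hj), zero_mul]
    · intro hj
      exfalso
      apply hj
      rw [Finset.mem_range]
      omega
  · rw [if_neg hk]
    symm
    refine Finset.sum_eq_zero fun j hj => ?_
    rw [Finset.mem_range] at hj
    by_cases h1 : m.degree = j
    · rw [if_neg (show ¬ m'.degree = k - j by omega), mul_zero]
    · rw [if_neg h1, zero_mul]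

open Classical in
/-- the linear map on one side -/
private noncomputable def cutbE {r : ℕ} (T : Finset (Fin n)) (J : Fin r → Fin n) (β : Fin r → ℕ) :
    MvPolynomial (Fin n) ℚ →ₗ[ℚ] MvPolynomial (Fin n) ℚ :=
  (basisMonomials (Fin n) ℚ).constr ℚ
    (fun m => monomial (Pool.Agent.Helper7.T1.offJ J m)
      (if ∀ j, J j ∈ T → m (J j) = β j then 1 else 0))

open Classical in
private theorem cutbE_mon {r : ℕ} (T : Finset (Fin n)) (J : Fin r → Fin n) (β : Fin r → ℕ)
    (m : Fin n →₀ ℕ) (a : ℚ) : cutbE T J β (monomial m a) =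
      monomial (Pool.Agent.Helper7.T1.offJ J m)
        (if ∀ j, J j ∈ T → m (J j) = β j then a else 0) := by
  have h1 : (monomial m a : MvPolynomial (Fin n) ℚ) = a • basisMonomials (Fin n) ℚ m := by
    rw [coe_basisMonomials, smul_monomial, smul_eq_mul, mul_one]
  rw [h1, map_smul, cutbE, Module.Basis.constr_basis, smul_monomial, smul_eq_mul]
  congr 1
  split_ifs <;> simp

private theorem cutb_off {r : ℕ} {T : Finset (Fin n)} (J : Fin r → Fin n) {m : Fin n →₀ ℕ}
    (hm : m.support ⊆ T) : (Pool.Agent.Helper7.T1.offJ J m).support ⊆ T := by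
  classical
  unfold Pool.Agent.Helper7.T1.offJ
  refine fun i hi => hm ?_
  rw [Finsupp.support_filter, Finset.mem_filter] at hi
  exact hi.1

private theorem cutb_Ev {r : ℕ} {T : Finset (Fin n)} (T' : Finset (Fin n)) (J : Fin r → Fin n)
    (β : Fin r → ℕ) {g : MvPolynomial (Fin n) ℚ} (hg : g.vars ⊆ T) :
    (cutbE T' J β g).vars ⊆ T := by
  refine cutb_sup (fun m a hm => ?_) hg
  rw [cutbE_mon]
  exact cutb_vmon (cutb_off J hm) _

private theorem cutb_ext {r : ℕ} {S : Finset (Fin n)} (J : Fin r → Fin n) (β : Fin r → ℕ)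
    {g h : MvPolynomial (Fin n) ℚ} (hg : g.vars ⊆ S) (hh : h.vars ⊆ Sᶜ) :
    Pool.Agent.Helper7.T1.ext J β (g * h) = cutbE S J β g * cutbE Sᶜ J β h := by
  classical
  have key := cutb_two (ι := Unit) {()} (L := Pool.Agent.Helper7.T1.ext J β)
    (E := fun _ => cutbE S J β) (F := fun _ => cutbE Sᶜ J β) hg hh ?_
  · rw [key, Finset.sum_singleton]
  · intro m m' a b hm hm'
    rw [Finset.sum_singleton, Pool.Agent.Helper7.T1.ext_monomial, cutbE_mon, cutbE_mon,
      monomial_mul]
    have h1 : Pool.Agent.Helper7.T1.offJ J (m + m') =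
        Pool.Agent.Helper7.T1.offJ J m + Pool.Agent.Helper7.T1.offJ J m' := by
      unfold Pool.Agent.Helper7.T1.offJ
      exact Finsupp.filter_add
    have hz : ∀ i, i ∉ S → m i = 0 := fun i hi => by
      by_contra hne
      exact hi (hm (Finsupp.mem_support_iff.2 hne))
    have hz' : ∀ i, i ∈ S → m' i = 0 := fun i hi => by
      by_contra hne
      exact Finset.mem_compl.1 (hm' (Finsupp.mem_support_iff.2 hne)) hi
    have h2 : ((fun j => (m + m') (J j)) = β) ↔ (∀ j, J j ∈ S → m (J j) = β j) ∧
        (∀ j, J j ∈ Sᶜ → m' (J j) = β j) := by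
      constructor
      · intro h
        refine ⟨fun j hj => ?_, fun j hj => ?_⟩
        · have := congrFun h j
          rw [Finsupp.add_apply, hz' _ hj, add_zero] at this
          exact this
        · have := congrFun h j
          rw [Finsupp.add_apply, hz _ (Finset.mem_compl.1 hj), zero_add] at this
          exact this
      · rintro ⟨h3, h4⟩
        funext j
        by_cases hj : J j ∈ S
        · rw [Finsupp.add_apply, hz' _ hj, add_zero]
          exact h3 j hj
        · rw [Finsupp.add_apply, hz _ hj, zero_add]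
          exact h4 j (Finset.mem_compl.2 hj)
    rw [h1]
    congr 1
    by_cases h3 : ∀ j, J j ∈ S → m (J j) = β j
    · by_cases h4 : ∀ j, J j ∈ Sᶜ → m' (J j) = β j
      · rw [if_pos h3, if_pos h4, if_pos (h2.2 ⟨h3, h4⟩)]
      · rw [if_neg h4, if_neg fun h => h4 (h2.1 h).2, mul_zero]
    · rw [if_neg h3, if_neg fun h => h3 (h2.1 h).1, zero_mul]

/- PLAN. `pderiv v (g * h) = pderiv v g * h` if `v ∈ S` (`v ∉ h.vars`, `pderiv_eq_zero_of_notMem_vars`),
`= g * pderiv v h` otherwise (`v ∉ g.vars`); `(pderiv v g).vars ⊆ g.vars` (look for a Mathlib or pool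
lemma; otherwise `supported` is stable under `pderiv`). -/
theorem Cut.pderiv {w : ℕ} {f : MvPolynomial (Fin n) K} (h : Cut w S f) (v : Fin n) :
    Cut w S (MvPolynomial.pderiv v f) := by
  obtain ⟨g, k, hg, hk, rfl⟩ := h
  by_cases hv : v ∈ S
  · refine ⟨fun i => MvPolynomial.pderiv v (g i), k, fun i => cutb_pd v (hg i), hk, ?_⟩
    rw [map_sum]
    refine Finset.sum_congr rfl fun i _ => ?_
    have h0 : MvPolynomial.pderiv v (k i) = 0 :=
      pderiv_eq_zero_of_notMem_vars fun h => Finset.mem_compl.1 (hk i h) hv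
    rw [pderiv_mul, h0, mul_zero, add_zero]
  · refine ⟨g, fun i => MvPolynomial.pderiv v (k i), hg, fun i => cutb_pd v (hk i), ?_⟩
    rw [map_sum]
    refine Finset.sum_congr rfl fun i _ => ?_
    have h0 : MvPolynomial.pderiv v (g i) = 0 :=
      pderiv_eq_zero_of_notMem_vars fun h => hv (hg i h)
    rw [pderiv_mul, h0, zero_mul, zero_add]

/- PLAN. `homogeneousComponent m (g k * h k) = ∑ a ∈ range (m+1), homogeneousComponent a (g k) *
homogeneousComponent (m - a) (h k)` (look for `homogeneousComponent_mul`, otherwise compare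
coefficients with `coeff_homogeneousComponent`, `coeff_mul`); the variables of a homogeneous component
are among those of the polynomial.  Reindex `Fin w × Fin (m+1)` by `finProdFinEquiv`. -/
theorem Cut.homog {w : ℕ} {f : MvPolynomial (Fin n) K} (h : Cut w S f) (m : ℕ) :
    Cut (w * (m + 1)) S (homogeneousComponent m f) := by
  obtain ⟨g, k, hg, hk, rfl⟩ := h
  refine ⟨fun j => homogeneousComponent (finProdFinEquiv.symm j).2 (g (finProdFinEquiv.symm j).1),
    fun j => homogeneousComponent (m - (finProdFinEquiv.symm j).2) (k (finProdFinEquiv.symm j).1),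
    fun j => cutb_hc _ (hg _), fun j => cutb_hc _ (hk _), ?_⟩
  rw [map_sum]
  have h1 : ∀ i, homogeneousComponent m (g i * k i) =
      ∑ a : Fin (m + 1), homogeneousComponent (a : ℕ) (g i) * homogeneousComponent (m - a) (k i) := by
    intro i
    rw [cutb_hmul m (hg i) (hk i)]
    exact Finset.sum_range fun a => homogeneousComponent a (g i) * homogeneousComponent (m - a) (k i)
  rw [Finset.sum_congr rfl fun i _ => h1 i, ← Fintype.sum_prod_type']
  exact (Equiv.sum_comp finProdFinEquiv.symm fun q : Fin w × Fin (m + 1) =>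
    homogeneousComponent (q.2 : ℕ) (g q.1) * homogeneousComponent (m - q.2) (k q.1)).symm

open Pool.Agent.Helper7.T1 in
/- PLAN. `ext J β (g * h) = E1 g * E2 h` for `g.vars ⊆ S`, `h.vars ⊆ Sᶜ`, where `E1` is the linear map
`monomial m a ↦ monomial (offJ J m) (if ∀ j, J j ∈ S → m (J j) = β j then a else 0)` and `E2` the
same with `J j ∉ S`; check it on products of monomials (`m` supported in `S`, `m'` in `Sᶜ`:
`(m + m') (J j) = m (J j)` if `J j ∈ S`, `= m' (J j)` otherwise; `offJ` is additive), then extend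
linearly (`g.as_sum`, `h.as_sum`; every monomial in the support of `g` is supported in `g.vars ⊆ S`).
The variables of `E1 g` are in `S`, those of `E2 h` in `Sᶜ`.  Simplest for the values of `E1 g`:
`E1 g := ∑ m ∈ g.support, monomial (offJ J m) (if .. then coeff m g else 0)`. -/
theorem Cut.ext {r w : ℕ} {f : MvPolynomial (Fin n) ℚ} (h : Cut w S f) (J : Fin r → Fin n)
    (β : Fin r → ℕ) : Cut w S (Pool.Agent.Helper7.T1.ext J β f) := by
  obtain ⟨g, k, hg, hk, rfl⟩ := h
  refine ⟨fun i => cutbE S J β (g i), fun i => cutbE Sᶜ J β (k i), fun i => cutb_Ev S J β (hg i),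
    fun i => cutb_Ev Sᶜ J β (hk i), ?_⟩
  rw [map_sum]
  exact Finset.sum_congr rfl fun i _ => cutb_ext J β (hg i) (hk i)

end Pool.Agent.AOI
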