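import Pool.Agent.Helper8.Occ.Defs
import Pool.Agent.Helper8.Occ.LeafDef
import Pool.Agent.AOI.Defs

/-!
Project TWA (MP_e2be99_lc, Theorem W, helper7): sums of boundedly many (more generally polynomials in
unboundedly many, at most `k` of them algebraically independent) products of unboundedly many formulas
of bounded depth and bounded occurrence over leaves all of whose flattenings have rank at most `w`
(read-once programs in any order) and which have few exponents in each variable.

`Cut`, `Cuts`, `sh`, `points` are those of `Pool.Agent.AOI`; `OccFormula`, `order`, `seeds` those of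
`Pool.Agent.Helper8.Occ`.
-/

set_option autoImplicit false

namespace Pool.Agent.TWA

open MvPolynomial Pool.Agent.AOI Pool.Agent.Helper8.Occ

/-- All flattenings of `g` have rank at most `w`, every variable has at most `P` different exponents
in `g` and degree at most `d`. -/
def Fx {K : Type*} [Field K] {n : ℕ} (w P d : ℕ) (g : MvPolynomial (Fin n) K) : Prop :=
  Cuts w g ∧ (∀ i, (g.support.image fun m => m i).card ≤ P) ∧ ∀ i, g.degreeOf i ≤ d

/-- The leaves: all flattenings of `g` have rank at most `w` (`Cuts`), `g` has at most `P` different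
exponent patterns on any `k` variables and degree at most `d` in every variable. -/
def AOLeaf (n k w P d : ℕ) (g : MvPolynomial (Fin n) ℚ) : Prop :=
  Cuts w g ∧ (∀ J : Fin k → Fin n, (g.support.image fun m j => m (J j)).card ≤ P) ∧
    ∀ i, g.degreeOf i ≤ d

/-- The points `1 + s y`, `y` in `points n P (w (P n + 1))`, `s ≤ n d`. -/
def basePts (n w P d : ℕ) : Finset (Fin n → ℕ) :=
  (Finset.range (n * d + 1) ×ˢ points n P (w * (P * n + 1))).image fun q i => 1 + q.1 * q.2 i

/-- `basePts` for the rank `M! (w+1)^M`, `(P+1)^M` exponents and the degree `M (d+1)`,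
`M = order κ k P Δ`. -/
def baseW (n κ k w P d Δ : ℕ) : Finset (Fin n → ℕ) :=
  basePts n ((order κ k P Δ).factorial * (w + 1) ^ order κ k P Δ) ((P + 1) ^ order κ k P Δ)
    (order κ k P Δ * (d + 1))

/-- The point with `i`-th coordinate
`y ∑_{a<A} p_a(i) ∏_{b<A, b≠a} (v - b) + ∑_{l<c} z_l ∏_{j≠i} (u_l - j)`. -/
def point (n A c : ℕ) (p : ℕ → Fin n → ℕ) (y v : ℕ) (z u : Fin c → ℕ) (i : Fin n) : ℚ :=
  (y : ℚ) * ∑ a ∈ Finset.range A, (p a i : ℚ) *
      ∏ b ∈ (Finset.range A).erase a, ((v : ℚ) - (b : ℚ)) +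
    ∑ l, (z l : ℚ) * ∏ j ∈ Finset.univ.erase i, ((u l : ℚ) - (j.val : ℚ))

/-- All points with parameters in `{0, …, R}`. -/
def hitW (n A c R : ℕ) (p : ℕ → Fin n → ℕ) : Finset (Fin n → ℚ) :=
  ((Finset.range (R + 1) ×ˢ Finset.range (R + 1)) ×ˢ
    ((Fintype.piFinset fun _ : Fin c => Finset.range (R + 1)) ×ˢ
      (Fintype.piFinset fun _ : Fin c => Finset.range (R + 1)))).image
    fun a => point n A c p a.1.1 a.1.2 a.2.1 a.2.2

/-- The bound for the number of points of `baseW`: with `P' = (P+1)^M`, `w' = M! (w+1)^M (P' n + 1)`,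
it is `(n M (d+1) + 1) (n+1)^7 (2 w')^(400 P')`. -/
def sizeW (n κ k w P d Δ : ℕ) : ℕ :=
  (n * (order κ k P Δ * (d + 1)) + 1) * ((n + 1) ^ 7 *
    (2 * ((order κ k P Δ).factorial * (w + 1) ^ order κ k P Δ *
      ((P + 1) ^ order κ k P Δ * n + 1))) ^ (400 * (P + 1) ^ order κ k P Δ))

end Pool.Agent.TWA
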