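import Pool.Agent.TWA.Defs
import Pool.Agent.Helper8.Occ.Gate

/-!
# TWA: exponents of derivatives and determinants
-/

set_option autoImplicit false

namespace Pool.Agent.TWA

open MvPolynomial Pool.Agent.AOI Pool.Agent.Helper8.Occ

variable {K : Type*} [Field K] {n : ℕ}

private theorem exps_add_single_mem (g : MvPolynomial (Fin n) K) (v : Fin n) (m : Fin n →₀ ℕ)
    (hm : m ∈ (pderiv v g).support) : m + Finsupp.single v 1 ∈ g.support := by
  rw [mem_support_iff] at hm ⊢
  intro h
  apply hm
  rw [coeff_pderiv, h, zero_mul]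

/- Proof: `m + single v 1` is in the support of `g` for each monomial `m` of the derivative. -/
theorem card_exps_pderiv {P : ℕ} (g : MvPolynomial (Fin n) K) (i v : Fin n)
    (h : (g.support.image fun m => m i).card ≤ P) :
    ((pderiv v g).support.image fun m => m i).card ≤ P := by
  have hsub : ((pderiv v g).support.image fun m => m i) ⊆
      (g.support.image fun m => m i).image (fun k => k - (Finsupp.single v 1 : Fin n →₀ ℕ) i) := by
    intro k hk
    rw [Finset.mem_image] at hk
    obtain ⟨m, hm, rfl⟩ := hk
    rw [Finset.mem_image]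
    refine ⟨(m + Finsupp.single v 1 : Fin n →₀ ℕ) i, ?_, ?_⟩
    · exact Finset.mem_image_of_mem (fun m : Fin n →₀ ℕ => m i) (exps_add_single_mem g v m hm)
    · rw [Finsupp.add_apply]
      omega
  exact ((Finset.card_le_card hsub).trans Finset.card_image_le).trans h

private theorem exps_prod_support {ι : Type*} [DecidableEq ι] (s : Finset ι)
    (g : ι → MvPolynomial (Fin n) K) :
    ∀ m ∈ (∏ l ∈ s, g l).support, ∃ f : ι → (Fin n →₀ ℕ),
      (∀ l ∈ s, f l ∈ (g l).support) ∧ m = ∑ l ∈ s, f l := by
  induction s using Finset.induction_on with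
  | empty =>
    intro m hm
    rw [Finset.prod_empty] at hm
    refine ⟨fun _ => 0, fun l hl => absurd hl (Finset.notMem_empty l), ?_⟩
    rw [Finset.sum_empty]
    rw [mem_support_iff, coeff_one] at hm
    by_contra hne
    exact hm (if_neg (fun h0 => hne h0.symm))
  | insert x s hx ih =>
    intro m hm
    rw [Finset.prod_insert hx] at hm
    have hm2 := support_mul _ _ hm
    rw [Finset.mem_add] at hm2
    obtain ⟨p, hp, q, hq, hpq⟩ := hm2
    obtain ⟨f, hf, hfq⟩ := ih q hq
    refine ⟨fun l => if l = x then p else f l, ?_, ?_⟩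
    · intro l hl
      by_cases hlx : l = x
      · simp only [hlx, if_true]
        exact hp
      · simp only [hlx, if_false]
        exact hf l ((Finset.mem_insert.mp hl).resolve_left hlx)
    · rw [Finset.sum_insert hx]
      simp only [if_true]
      rw [← hpq, hfq]
      congr 1
      apply Finset.sum_congr rfl
      intro l hl
      have hlx : l ≠ x := fun h0 => hx (h0 ▸ hl)
      simp only [hlx, if_false]

/- Proof: expand the determinant; every monomial `m` of it satisfies `m i + s = ∑ l, e l` with
`e l` an exponent of `i` in `a l`, `s` the number of `j` with `J j = i`. -/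
theorem card_exps_det {M P : ℕ} (a : Fin M → MvPolynomial (Fin n) K) (i : Fin n)
    (ha : ∀ l, ((a l).support.image fun m => m i).card ≤ P) (J : Fin M → Fin n) :
    ((Matrix.of fun l j => pderiv (J j) (a l)).det.support.image fun m => m i).card ≤ P ^ M := by
  have hsub : ((Matrix.of fun l j => pderiv (J j) (a l)).det.support.image fun m => m i) ⊆
      (Fintype.piFinset fun l => (a l).support.image fun m => m i).image
        (fun e => (∑ l, e l) - ∑ l, (Finsupp.single (J l) 1 : Fin n →₀ ℕ) i) := by
    intro k hk
    rw [Finset.mem_image] at hk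
    obtain ⟨m, hm, rfl⟩ := hk
    rw [Matrix.det_apply] at hm
    have hm2 := support_sum hm
    rw [Finset.mem_biUnion] at hm2
    obtain ⟨σ, -, hσ⟩ := hm2
    have hσ2 : m ∈ (∏ l, pderiv (J l) (a (σ l))).support := by
      have h1 := support_smul hσ
      simpa only [Matrix.of_apply] using h1
    obtain ⟨f, hf, hmf⟩ := exps_prod_support Finset.univ
      (fun l => pderiv (J l) (a (σ l))) m hσ2
    rw [Finset.mem_image]
    refine ⟨fun l => (f (σ.symm l) + Finsupp.single (J (σ.symm l)) 1 : Fin n →₀ ℕ) i, ?_, ?_⟩
    · rw [Fintype.mem_piFinset]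
      intro l
      have h1 := exps_add_single_mem (a (σ (σ.symm l))) (J (σ.symm l)) (f (σ.symm l))
        (hf (σ.symm l) (Finset.mem_univ _))
      rw [Equiv.apply_symm_apply] at h1
      exact Finset.mem_image_of_mem (fun m : Fin n →₀ ℕ => m i) h1
    · have h2 : (∑ l, (f (σ.symm l) + Finsupp.single (J (σ.symm l)) 1 : Fin n →₀ ℕ) i)
          = ∑ l, (f l + Finsupp.single (J l) 1 : Fin n →₀ ℕ) i :=
        Equiv.sum_comp σ.symm (fun l => (f l + Finsupp.single (J l) 1 : Fin n →₀ ℕ) i)
      have h3 : m i = ∑ l, (f l) i := by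
        rw [hmf, Finsupp.finsetSum_apply]
      show (∑ l, (f (σ.symm l) + Finsupp.single (J (σ.symm l)) 1 : Fin n →₀ ℕ) i)
        - ∑ l, (Finsupp.single (J l) 1 : Fin n →₀ ℕ) i = m i
      rw [h2, h3]
      simp only [Finsupp.add_apply]
      rw [Finset.sum_add_distrib]
      omega
  calc ((Matrix.of fun l j => pderiv (J j) (a l)).det.support.image fun m => m i).card
      ≤ (Fintype.piFinset fun l => (a l).support.image fun m => m i).card :=
        (Finset.card_le_card hsub).trans Finset.card_image_le
    _ = ∏ l, ((a l).support.image fun m => m i).card := Fintype.card_piFinset _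
    _ ≤ ∏ _l : Fin M, P := Finset.prod_le_prod' (fun l _ => ha l)
    _ = P ^ M := by rw [Finset.prod_const, Finset.card_univ, Fintype.card_fin]

end Pool.Agent.TWA
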