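import Mathlib

/-!
# TWA: few exponents, vanishing at 1
-/

set_option autoImplicit false

namespace Pool.Agent.TWA

private lemma sum_prod_choose {K : Type*} [Field K] (E : Finset ℕ) (P : ℕ) (c : ℕ → K)
    (h : ∀ i < P, ∑ b ∈ E, c b * (b.choose i : K) = 0) (S : Finset ℕ) :
    ∀ j : ℕ, S.card + j < P →
      ∑ b ∈ E, c b * (∏ a ∈ S, ((b : K) - (a : K))) * (b.choose j : K) = 0 := by
  classical
  induction S using Finset.induction_on with
  | empty =>
    intro j hj
    have := h j (by simpa using hj)
    simpa using this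
  | insert a S ha ih =>
    intro j hj
    rw [Finset.card_insert_of_notMem ha] at hj
    have h1 := ih (j + 1) (by omega)
    have h2 := ih j (by omega)
    have key : ∀ b : ℕ, ((b : K) - (a : K)) * (b.choose j : K)
        = ((j : K) + 1) * (b.choose (j + 1) : K) + ((j : K) - (a : K)) * (b.choose j : K) := by
      intro b
      have e : (b.choose (j + 1) : K) * ((j : K) + 1) = (b.choose j : K) * ((b : K) - (j : K)) := by
        rcases Nat.lt_or_ge b j with hb | hb
        · rw [Nat.choose_eq_zero_of_lt hb, Nat.choose_eq_zero_of_lt (by omega)]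
          simp
        · have := Nat.choose_succ_right_eq b j
          have h3 := congrArg (fun n : ℕ => (n : K)) this
          simp only [Nat.cast_mul, Nat.cast_add, Nat.cast_one, Nat.cast_sub hb] at h3
          exact h3
      linear_combination (-1 : K) * e
    calc ∑ b ∈ E, c b * (∏ a' ∈ insert a S, ((b : K) - (a' : K))) * (b.choose j : K)
        = ∑ b ∈ E, (((j : K) + 1) * (c b * (∏ a' ∈ S, ((b : K) - (a' : K)))
              * (b.choose (j + 1) : K))
            + ((j : K) - (a : K)) * (c b * (∏ a' ∈ S, ((b : K) - (a' : K)))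
              * (b.choose j : K))) := by
          refine Finset.sum_congr rfl fun b _ => ?_
          rw [Finset.prod_insert ha]
          linear_combination (c b * ∏ a' ∈ S, ((b : K) - (a' : K))) * key b
      _ = 0 := by
          rw [Finset.sum_add_distrib, ← Finset.mul_sum, ← Finset.mul_sum, h1, h2]
          simp

/- PLAN. `∑ b, c b * choose b j` is the coefficient of `X^j` in `G = ∑ b ∈ E, C (c b) * (1 + X)^b`.
If all coefficients with `j < P` vanish then `X^P ∣ G`, i.e. `(X - 1)^P ∣ G0 = ∑ b ∈ E, C (c b) * X^b`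
(`Polynomial.comp` with `X - 1` or `X + 1`), and `G0` has at most `P` monomials.
Claim: a polynomial `Q` over a field of characteristic 0 with `Q.support.card ≤ P` and `(X - 1)^P ∣ Q`
is `0`. Induction on `P` (all `Q`): `P = 0`: the support is empty.  `P + 1`: if `Q ≠ 0` write
`Q = X^b0 * Q1` with `Q1.coeff 0 ≠ 0` (`Polynomial.divX` iterated, `rootMultiplicity` at `0`, or
`Q.natTrailingDegree`, `Polynomial.eraseLead`-like arguments); `(X - 1)^(P+1) ∣ Q1` (coprime to `X`), so
`(X - 1)^P ∣ derivative Q1`, whose support has at most `P` elements (the constant term disappears), so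
`derivative Q1 = 0` and `Q1` is a constant which is `0` at `1`.
Alternatively a Vandermonde argument: the functionals `b ↦ choose b j`, `j < P`, span all polynomials
in `b` of degree `< P`. -/
theorem exists_lt_choose {K : Type*} [Field K] [CharZero K] (E : Finset ℕ) (P : ℕ)
    (hE : E.card ≤ P) (c : ℕ → K) (j0 : ℕ) (h : ∑ b ∈ E, c b * (b.choose j0 : K) ≠ 0) :
    ∃ j < P, ∑ b ∈ E, c b * (b.choose j : K) ≠ 0 := by
  classical
  by_contra hcon
  push Not at hcon
  apply h
  refine Finset.sum_eq_zero fun b0 hb0 => ?_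
  have hpos : 0 < E.card := Finset.card_pos.mpr ⟨b0, hb0⟩
  have hs := sum_prod_choose E P c hcon (E.erase b0) 0 (by
    rw [Finset.card_erase_of_mem hb0]; omega)
  have hs2 : ∑ b ∈ E, c b * (∏ a ∈ E.erase b0, ((b : K) - (a : K))) * (b.choose 0 : K)
      = c b0 * (∏ a ∈ E.erase b0, ((b0 : K) - (a : K))) * (b0.choose 0 : K) := by
    refine Finset.sum_eq_single_of_mem b0 hb0 fun b hb hne => ?_
    have hz : ∏ a ∈ E.erase b0, ((b : K) - (a : K)) = 0 :=
      Finset.prod_eq_zero (Finset.mem_erase.mpr ⟨hne, hb⟩) (sub_self _)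
    rw [hz]; simp
  rw [hs2] at hs
  have hne : ∏ a ∈ E.erase b0, ((b0 : K) - (a : K)) ≠ 0 := by
    refine Finset.prod_ne_zero_iff.mpr fun a ha => ?_
    have hab : b0 ≠ a := fun e => (Finset.mem_erase.mp ha).1 e.symm
    exact sub_ne_zero.mpr fun e => hab (Nat.cast_injective e)
  have hc : c b0 = 0 := by
    rcases mul_eq_zero.mp hs with h1 | h1
    · rcases mul_eq_zero.mp h1 with h2 | h2
      · exact h2
      · exact absurd h2 hne
    · simp at h1
  rw [hc, zero_mul]

end Pool.Agent.TWA
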