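import Pool.Agent.TWA.FxA
import Pool.Agent.Helper8.Occ.Sparse

/-!
# TWA: (H2) for the leaves
-/

set_option autoImplicit false

namespace Pool.Agent.TWA

open MvPolynomial Pool.Agent.AOI Pool.Agent.Helper8.Occ VF KS
open Pool.Agent.Helper7 (shf coefSub coefSub_mono C_mem_coefSub shf_eq_C shf_mem_of_vars)
open Pool.Agent.Helper7.T1 (Pat ext decompose card_Pat sp_ext vars_ext vars_onJ)

variable {n : ℕ}

/- PLAN. The condition on patterns for the constant map `J = fun _ => i` (`1 ≤ k`). -/
theorem AOLeaf.fx {k w P d : ℕ} (hk : 1 ≤ k) {g : MvPolynomial (Fin n) ℚ}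
    (h : AOLeaf n k w P d g) : Fx w P d g := by
  classical
  refine ⟨h.1, fun i => ?_, h.2.2⟩
  have h1 := h.2.1 (fun _ => i)
  have h2 : (g.support.image fun m => m i) ⊆
      (g.support.image fun (m : Fin n →₀ ℕ) (_ : Fin k) => m i).image
        (fun β => β ⟨0, hk⟩) := by
    intro e he
    obtain ⟨m, hm, rfl⟩ := Finset.mem_image.1 he
    exact Finset.mem_image.2 ⟨_, Finset.mem_image_of_mem _ hm, rfl⟩
  exact (Finset.card_le_card h2).trans (Finset.card_image_le.trans h1)

theorem fx_X {w P d : ℕ} (i : Fin n) : Fx (w + 1) (P + 1) (d + 1) (X i : MvPolynomial (Fin n) ℚ) := by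
  classical
  refine ⟨fun S => (Cut.X i).mono (by omega), fun j => ?_, fun j => ?_⟩
  · rw [support_X, Finset.image_singleton, Finset.card_singleton]
    omega
  · rw [degreeOf_X]
    split_ifs <;> omega

theorem fx_zero {w P d : ℕ} : Fx w P d (0 : MvPolynomial (Fin n) ℚ) := by
  refine ⟨fun S => Cut.zero w, fun i => ?_, fun i => ?_⟩
  · rw [support_zero, Finset.image_empty, Finset.card_empty]
    exact Nat.zero_le _
  · rw [degreeOf_zero]
    exact Nat.zero_le _

private theorem h2_supp {r : ℕ} (J : Fin r → Fin n) (β : Fin r → ℕ)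
    (g : MvPolynomial (Fin n) ℚ) (m' : Fin n →₀ ℕ)
    (hm : m' ∈ (Pool.Agent.Helper7.T1.ext J β g).support) :
    ∃ m ∈ g.support, m' = Pool.Agent.Helper7.T1.offJ J m := by
  classical
  have h1 : Pool.Agent.Helper7.T1.ext J β g = ∑ m ∈ g.support,
      Pool.Agent.Helper7.T1.ext J β (monomial m (coeff m g)) := by
    rw [← map_sum, ← g.as_sum]
  rw [h1] at hm
  obtain ⟨m, hm1, hm2⟩ := Finset.mem_biUnion.1 (support_sum hm)
  refine ⟨m, hm1, ?_⟩
  rw [Pool.Agent.Helper7.T1.ext_monomial] at hm2
  exact Finset.mem_singleton.1 (support_monomial_subset hm2)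

open Pool.Agent.Helper7.T1 in
/- PLAN. `Cut.ext`; the exponents of `i` in `ext J β g` are `0` if `i` is in the range of `J`
(`vars_ext`), otherwise they are exponents of `i` in `g` (`offJ`); the degrees by `sp_ext`. -/
theorem fx_ext {r w P d : ℕ} {g : MvPolynomial (Fin n) ℚ} (h : Fx w P d g) (J : Fin r → Fin n)
    (β : Fin r → ℕ) : Fx (w + 1) (P + 1) (d + 1) (Pool.Agent.Helper7.T1.ext J β g) := by
  classical
  refine ⟨fun S => ((h.1 S).ext J β).mono (Nat.le_succ w), fun i => ?_, fun i => ?_⟩
  · by_cases hi : ∃ j, J j = i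
    · have h1 : ((Pool.Agent.Helper7.T1.ext J β g).support.image fun m => m i) ⊆ {0} := by
        intro e he
        obtain ⟨m', hm', rfl⟩ := Finset.mem_image.1 he
        obtain ⟨m, -, rfl⟩ := h2_supp J β g m' hm'
        rw [Finset.mem_singleton]
        show (offJ J m) i = 0
        rw [offJ, Finsupp.filter_apply, if_neg (by push Not; exact hi)]
      refine (Finset.card_le_card h1).trans ?_
      rw [Finset.card_singleton]
      omega
    · have h1 : ((Pool.Agent.Helper7.T1.ext J β g).support.image fun m => m i) ⊆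
          (g.support.image fun m => m i) := by
        intro e he
        obtain ⟨m', hm', rfl⟩ := Finset.mem_image.1 he
        obtain ⟨m, hm, rfl⟩ := h2_supp J β g m' hm'
        refine Finset.mem_image.2 ⟨m, hm, ?_⟩
        show m i = (offJ J m) i
        rw [offJ, Finsupp.filter_apply, if_pos (by push Not at hi; exact hi)]
      exact ((Finset.card_le_card h1).trans (h.2.1 i)).trans (Nat.le_succ P)
  · exact ((sp_ext (s := g.support.card) (d := d) ⟨le_rfl, h.2.2⟩ J β).2 i).trans (Nat.le_succ d)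

/- PLAN. Copy of `sparse_H2` (Pool/Agent/Helper8/Occ/Sparse.lean) with `fx_X`, `fx_ext`. -/
theorem ao_H2 {k w P d : ℕ} (hk : 1 ≤ k) :
    Pool.Agent.Helper8.Occ.H2 {g : MvPolynomial (Fin n) ℚ | AOLeaf n k w P d g}
      {g : MvPolynomial (Fin n) ℚ | Fx (w + 1) (P + 1) (d + 1) g} k (k + (P + 1)) := by
  classical
  intro g hg r hr J
  refine ⟨(Finset.univ.image fun j => X (J j)) ∪ (Pat J g).image (fun β => ext J β g), ?_, ?_, ?_⟩
  · intro a ha
    rcases Finset.mem_union.1 ha with ha | ha
    · obtain ⟨j, _, rfl⟩ := Finset.mem_image.1 ha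
      exact fx_X _
    · obtain ⟨β, _, rfl⟩ := Finset.mem_image.1 ha
      exact fx_ext (AOLeaf.fx hk hg) J β
  · refine (Finset.card_union_le _ _).trans (Nat.add_le_add ?_ ?_)
    · refine Finset.card_image_le.trans ?_
      rwa [Finset.card_univ, Fintype.card_fin]
    · exact Finset.card_image_le.trans (card_Pat hg.2.1 hr J)
  · set A : Finset (MvPolynomial (Fin n) ℚ) := (Finset.univ.image fun j => X (J j)) ∪
      (Pat J g).image (fun β => ext J β g) with hA
    have hX : ∀ i ∈ Finset.univ.image J, (X i : MvPolynomial (Fin n) ℚ) ∈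
        Algebra.adjoin ℚ (A : Set (MvPolynomial (Fin n) ℚ)) := by
      intro i hi
      obtain ⟨j, -, rfl⟩ := Finset.mem_image.1 hi
      apply Algebra.subset_adjoin
      rw [Finset.mem_coe]
      exact Finset.mem_union_left _
        (Finset.mem_image_of_mem (fun j => X (J j)) (Finset.mem_univ j))
    rw [decompose J g, map_sum]
    refine (coefSub _ r).sum_mem fun β hβ => ?_
    rw [map_mul]
    refine (coefSub _ r).mul_mem (shf_mem_of_vars J (vars_onJ J β) hX) ?_
    rw [shf_eq_C J (fun j => vars_ext J β g j)]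
    apply C_mem_coefSub
    apply Algebra.subset_adjoin
    rw [Finset.mem_coe]
    exact Finset.mem_union_right _ (Finset.mem_image_of_mem (fun β => ext J β g) hβ)

end Pool.Agent.TWA
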