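import Pool.Agent.TWA.H1
import Pool.Agent.TWA.H2
import Pool.Agent.TWA.Card
import Pool.Agent.Helper8.Occ.Explicit

/-!
# TWA: main theorem
-/

set_option autoImplicit false

namespace Pool.Agent.TWA

open MvPolynomial Pool.Agent.AOI Pool.Agent.Helper8.Occ VF KS
open Pool.Agent.Helper7.T1 (exists_small)

variable {n : ℕ}

theorem eval_full (A c : ℕ) (p : ℕ → Fin n → ℕ) (s : Fin 2 ⊕ (Fin c ⊕ Fin c) → ℕ) (i : Fin n) :
    eval (fun j => (s j : ℚ)) (full n A c p i) =
      point n A c p (s (Sum.inl 0)) (s (Sum.inl 1)) (fun l => s (Sum.inr (Sum.inl l)))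
        (fun l => s (Sum.inr (Sum.inr l))) i := by
  unfold full point
  rw [map_add, eval_rename, eval_rename, Pool.Agent.Helper5.eval_genPoly, crv,
    Pool.Agent.Helper5.gen]
  simp [Function.comp_def]

theorem totalDegree_full (A c : ℕ) (p : ℕ → Fin n → ℕ) (i : Fin n) :
    (full n A c p i).totalDegree ≤ A + n := by
  unfold full
  refine (totalDegree_add _ _).trans (max_le ?_ ?_)
  · exact ((totalDegree_rename_le _ _).trans (totalDegree_crv A p i)).trans (Nat.le_add_right _ _)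
  · refine (totalDegree_rename_le _ _).trans ((Helper6.totalDegree_genPoly n c i).trans ?_)
    omega

theorem mem_hitW {A c R : ℕ} (p : ℕ → Fin n → ℕ) (s : Fin 2 ⊕ (Fin c ⊕ Fin c) → ℕ)
    (hs : ∀ j, s j ≤ R) :
    (fun i => eval (fun j => (s j : ℚ)) (full n A c p i)) ∈ hitW n A c R p := by
  classical
  unfold hitW
  refine Finset.mem_image.2 ⟨((s (Sum.inl 0), s (Sum.inl 1)),
    (fun l => s (Sum.inr (Sum.inl l)), fun l => s (Sum.inr (Sum.inr l)))), ?_, ?_⟩
  · simp only [Finset.mem_product, Finset.mem_range, Fintype.mem_piFinset, Nat.lt_succ_iff]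
    exact ⟨⟨hs _, hs _⟩, fun _ => hs _, fun _ => hs _⟩
  · funext i
    exact (eval_full A c p s i).symm

theorem card_hitW (n A c R : ℕ) (p : ℕ → Fin n → ℕ) :
    (hitW n A c R p).card ≤ (R + 1) ^ (2 + 2 * c) := by
  classical
  unfold hitW
  refine Finset.card_image_le.trans ?_
  rw [Finset.card_product, Finset.card_product, Finset.card_product, Fintype.card_piFinset,
    Finset.card_range]
  simp only [Finset.card_range, Finset.prod_const, Finset.card_univ, Fintype.card_fin]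
  rw [← pow_add, ← sq, ← pow_add]
  exact le_of_eq (by congr 1; ring)

/-- **Theorem W.** -/
theorem hit_W {κ k w P d Δ A R : ℕ} (hk : 1 ≤ k) (p : ℕ → Fin n → ℕ)
    (hp : ∀ x ∈ baseW n κ k w P d Δ, ∃ a < A, p a = x) {N m : ℕ}
    (g : Fin N → Fin m → MvPolynomial (Fin n) ℚ) (e : Fin N → Fin m → ℕ)
    (hg : ∀ i j, OccFormula κ (AOLeaf n k w P d) Δ (g i j))
    (htr : ∀ b : Finset (Fin N),
      AlgebraicIndepOn ℚ (fun i => ∏ j, g i j ^ e i j) (b : Set (Fin N)) → b.card ≤ k)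
    (F : MvPolynomial (Fin n) ℚ)
    (hF : F ∈ Algebra.adjoin ℚ (Set.range fun i => ∏ j, g i j ^ e i j)) (hF0 : F ≠ 0)
    (f : MvPolynomial (Fin n) ℚ) (hf : f ∣ F)
    (hR : (A + n) * f.totalDegree ≤ R ∨
      (∃ a : Fin N → ℚ, F = ∑ i, C (a i) * ∏ j, g i j ^ e i j) ∧
        2 ^ (N + 1) * ((A + n) * ∑ i, ∑ j, (g i j).totalDegree) + N ≤ R) :
    ∃ x ∈ hitW n A (seeds κ k P Δ) R p, eval x f ≠ 0 := by
  classical
  have h1 : Phi (crv A p) (seeds κ k P Δ) F ≠ 0 := by
    refine Phi_mono _ (extra_le κ k P Δ) ?_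
    have key := occ_hit (k := k) (κ := κ) (Δ := Δ) (c := 0) (t₀ := k + (P + 1)) (crv A p)
      {g : MvPolynomial (Fin n) ℚ | AOLeaf n k w P d g}
      {g : MvPolynomial (Fin n) ℚ | Fx (w + 1) (P + 1) (d + 1) g}
      (fun g hg => (AOLeaf.fx hk hg).mono (Nat.le_succ _) (Nat.le_succ _) (Nat.le_succ _))
      fx_zero (ao_H2 hk) (by
        rw [minors_eq]
        exact ao_H1 p hp Δ)
      (fun i => ∏ j, g i j ^ e i j) ?_ htr F hF hF0
    · rw [Nat.zero_add] at key
      exact key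
    · intro i
      exact Submonoid.prod_mem _ fun j _ => Submonoid.pow_mem _
        (Submonoid.subset_closure (show g i j ∈ Pool.Agent.Helper8.Occ.F κ _ Δ from hg i j)) _
  change aeval (full n A (seeds κ k P Δ) p) F ≠ 0 at h1
  obtain ⟨f', hf'⟩ := hf
  rcases hR with hR | ⟨⟨a, ha⟩, hR⟩
  · have h2 : aeval (full n A (seeds κ k P Δ) p) f ≠ 0 := by
      rw [hf', map_mul] at h1
      exact left_ne_zero_of_mul h1
    have h3 : (aeval (full n A (seeds κ k P Δ) p) f).totalDegree ≤ R :=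
      (Helper6.totalDegree_aeval_le _ _ (fun i => totalDegree_full A _ p i) f).trans
        (by rw [mul_comm]; exact hR)
    obtain ⟨s', hs', h4⟩ := exists_small _ h2 h3
    refine ⟨_, mem_hitW p s' hs', ?_⟩
    rw [Pool.Agent.Helper7.T3.eval_aeval'] at h4
    exact h4
  · rw [ha] at h1
    obtain ⟨s', hs', h3⟩ := Helper6.exists_nat_seed (full n A (seeds κ k P Δ) p)
      (fun i => totalDegree_full A _ p i) a g e le_rfl h1
    refine ⟨_, mem_hitW (R := R) p s' (fun j => (hs' j).trans ?_), ?_⟩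
    · rw [mul_comm _ (A + n)]
      exact hR
    · rw [← ha, hf', map_mul] at h3
      exact left_ne_zero_of_mul h3

end Pool.Agent.TWA
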