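import Pool.Agent.TWA.CutB
import Pool.Agent.TWA.Exps
import Pool.Agent.Helper7.KS2

/-!
# TWA: Jacobian minors of the members of the class
-/

set_option autoImplicit false

namespace Pool.Agent.TWA

open MvPolynomial Pool.Agent.AOI Pool.Agent.Helper8.Occ KS

variable {n : ℕ}

/- PLAN. `Cut.mono`, monotonicity. -/
theorem Fx.mono {K : Type*} [Field K] {w w' P P' d d' : ℕ} {g : MvPolynomial (Fin n) K}
    (h : Fx w P d g) (hw : w ≤ w') (hP : P ≤ P') (hd : d ≤ d') : Fx w' P' d' g := by
  obtain ⟨h1, h2, h3⟩ := h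
  exact ⟨fun S => (h1 S).mono hw, fun i => (h2 i).trans hP, fun i => (h3 i).trans hd⟩

private theorem fxa_pderiv {w P d : ℕ} {g : MvPolynomial (Fin n) ℚ} (h : Fx w P d g)
    (v : Fin n) : Fx w P d (pderiv v g) := by
  obtain ⟨h1, h2, h3⟩ := h
  refine ⟨fun S => (h1 S).pderiv v, fun i => card_exps_pderiv g i v (h2 i), fun i => ?_⟩
  have h4 : Sp g.support.card d g := ⟨le_rfl, h3⟩
  exact (Sp.pderiv h4 v).2 i

/- PLAN. Induction on the list: `Cut.pderiv`, `card_exps_pderiv`, `degreeOf_pderiv_le` (Mathlib or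
pool; compare `Sp.pderiv` in Pool/Agent/Helper7/KS2.lean). -/
theorem Fx.pd {w P d : ℕ} {g : MvPolynomial (Fin n) ℚ} (h : Fx w P d g) (L : List (Fin n)) :
    Fx w P d (pd L g) := by
  induction L with
  | nil => exact h
  | cons v L ih => exact fxa_pderiv ih v

/- PLAN. `Cut.det`, `Cut.pderiv`; `card_exps_det`; the degree as in `Sp.det`, `Sp.pderiv`
(Pool/Agent/Helper7/KS2.lean) (one may apply `Sp.det` with `s` = a bound for the supports). -/
theorem Fx.det {w P d M : ℕ} (a : Fin M → MvPolynomial (Fin n) ℚ) (ha : ∀ l, Fx w P d (a l))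
    (J : Fin M → Fin n) :
    Fx (M.factorial * w ^ M) (P ^ M) (M * d) (Matrix.of fun l j => pderiv (J j) (a l)).det := by
  refine ⟨fun S => ?_, fun i => card_exps_det a i (fun l => (ha l).2.1 i) J, fun i => ?_⟩
  · exact Cut.det _ fun l j => ((ha l).1 S).pderiv (J j)
  · have h1 : ∀ l j, Sp (∑ l, ∑ j, (pderiv (J j) (a l)).support.card) d
        ((Matrix.of fun l j => pderiv (J j) (a l)) l j) := by
      intro l j
      rw [Matrix.of_apply]
      refine ⟨?_, (fxa_pderiv (ha l) (J j)).2.2⟩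
      refine le_trans ?_ (Finset.single_le_sum (f := fun l => ∑ j,
        (pderiv (J j) (a l)).support.card) (fun _ _ => Nat.zero_le _) (Finset.mem_univ l))
      exact Finset.single_le_sum (f := fun j => (pderiv (J j) (a l)).support.card)
        (fun _ _ => Nat.zero_le _) (Finset.mem_univ j)
    exact (Sp.det _ h1).2 i

end Pool.Agent.TWA
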