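import Pool.Agent.TWA.Low
import Pool.Agent.TWA.CutB
import Pool.Agent.TWA.Defs
import Pool.Agent.AOI.Main

/-!
# TWA: the base points hit the polynomials with few exponents and small flattening ranks
-/

set_option autoImplicit false

namespace Pool.Agent.TWA

open MvPolynomial Pool.Agent.AOI

variable {K : Type*} [Field K] [CharZero K] {n : ℕ}

omit [CharZero K] in
private theorem th_smul {p : MvPolynomial (Fin n) K} {l : ℕ} (hp : p.IsHomogeneous l) (s : K)
    (y : Fin n → K) : eval (fun i => s * y i) p = s ^ l * eval y p := by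
  rw [eval_eq', eval_eq', Finset.mul_sum]
  refine Finset.sum_congr rfl fun m hm => ?_
  have h1 : ∑ i, m i = l := by
    have h2 := hp (mem_support_iff.1 hm)
    rw [← h2, Finsupp.weight_apply, Finsupp.sum_fintype _ _ (fun _ => by simp)]
    simp
  rw [← h1, ← Finset.prod_pow_eq_pow_sum]
  have h3 : ∏ i, (s * y i) ^ m i = (∏ i, s ^ m i) * ∏ i, y i ^ m i := by
    rw [← Finset.prod_mul_distrib]
    exact Finset.prod_congr rfl fun i _ => mul_pow _ _ _
  rw [h3]
  ring

private theorem th_line {D m : ℕ} (F : MvPolynomial (Fin n) K) (hD : F.totalDegree ≤ D)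
    (y : Fin n → K) (hy : eval y (homogeneousComponent m F) ≠ 0) :
    ∃ s ∈ Finset.range (D + 1), eval (fun i => (s : K) * y i) F ≠ 0 := by
  classical
  by_contra hcon
  push Not at hcon
  obtain ⟨Q, hQ⟩ : ∃ Q : Polynomial K, Q = ∑ l ∈ Finset.range (D + 1),
      Polynomial.monomial l (eval y (homogeneousComponent l F)) := ⟨_, rfl⟩
  have hsum : ∑ l ∈ Finset.range (D + 1), homogeneousComponent l F = F := by
    conv_rhs => rw [← sum_homogeneousComponent F]
    symm
    refine Finset.sum_subset (Finset.range_mono (by omega)) fun l _ hl => ?_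
    rw [Finset.mem_range, not_lt] at hl
    exact homogeneousComponent_eq_zero l F (by omega)
  have hev : ∀ s : K, Q.eval s = eval (fun i => s * y i) F := by
    intro s
    conv_rhs => rw [← hsum, map_sum]
    rw [hQ, Polynomial.eval_finsetSum]
    refine Finset.sum_congr rfl fun l _ => ?_
    rw [Polynomial.eval_monomial, th_smul (homogeneousComponent_isHomogeneous l F)]
    ring
  have hdeg : Q.natDegree ≤ D := by
    rw [hQ]
    refine Polynomial.natDegree_sum_le_of_forall_le _ _ fun l hl => ?_
    rw [Finset.mem_range] at hl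
    exact (Polynomial.natDegree_monomial_le _).trans (by omega)
  have hz : Q = 0 := by
    refine Polynomial.eq_zero_of_natDegree_lt_card_of_eval_eq_zero' Q
      ((Finset.range (D + 1)).image (fun s : ℕ => (s : K))) ?_ ?_
    · intro x hx
      obtain ⟨s, hs, rfl⟩ := Finset.mem_image.1 hx
      rw [hev]
      exact hcon s hs
    · rw [Finset.card_image_of_injective _ Nat.cast_injective, Finset.card_range]
      omega
  have hc : Q.coeff m = 0 := by rw [hz, Polynomial.coeff_zero]
  rw [hQ, Polynomial.finsetSum_coeff] at hc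
  have hm : m ∈ Finset.range (D + 1) := by
    rw [Finset.mem_range]
    by_contra hlt
    apply hy
    rw [homogeneousComponent_eq_zero m F (by omega), map_zero]
  rw [Finset.sum_eq_single_of_mem m hm fun l _ hl => Polynomial.coeff_monomial_of_ne _ (Ne.symm hl),
    Polynomial.coeff_monomial, if_pos rfl] at hc
  exact hy hc

theorem hit_few {w P d : ℕ} (hP : 1 ≤ P) (f : MvPolynomial (Fin n) K) (hf : f ≠ 0)
    (h : Fx w P d f) : ∃ x ∈ basePts n w P d, eval (fun i => ((x i : ℕ) : K)) f ≠ 0 := by
  obtain ⟨hC, hcard, hdeg⟩ := h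
  obtain ⟨m, hm, hne, _, hgd⟩ := exists_lowest f hf hcard
  have hCg : Cuts (w * (P * n + 1)) (homogeneousComponent m (sh f (fun _ => (1 : K)))) :=
    fun S => (((hC S).sh _).homog m).mono (Nat.mul_le_mul_left _ (by omega))
  obtain ⟨y, hy, hyne⟩ := hit hP _ hne hgd hCg
  have hFd : ∀ i, (sh f (fun _ => (1 : K))).degreeOf i ≤ d := fun i =>
    (sh_degreeOf f _ i).trans (hdeg i)
  obtain ⟨s, hs, hsne⟩ := th_line (sh f (fun _ => (1 : K)))
    (totalDegree_le _ hFd) (fun i => ((y i : ℕ) : K)) hyne
  refine ⟨fun i => 1 + s * y i, ?_, ?_⟩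
  · unfold basePts
    rw [Finset.mem_image]
    exact ⟨(s, y), Finset.mem_product.2 ⟨hs, hy⟩, rfl⟩
  · rw [eval_sh] at hsne
    have he : (fun i => (((1 + s * y i : ℕ)) : K)) = fun i => 1 + (s : K) * ((y i : ℕ) : K) := by
      funext i
      push_cast
      rfl
    rw [he]
    exact hsne

end Pool.Agent.TWA
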