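import Pool.Agent.TWA.FxA
import Pool.Agent.TWA.Hit
import Pool.Agent.TWA.Crv
import Pool.Agent.Helper8.Occ.Sparse

/-!
# TWA: (H1) for the leaves
-/

set_option autoImplicit false

namespace Pool.Agent.TWA

open MvPolynomial Pool.Agent.AOI Pool.Agent.Helper8.Occ VF KS

variable {n : ℕ}

theorem ao_H1 {w P d M₀ A : ℕ} (p : ℕ → Fin n → ℕ)
    (hp : ∀ x ∈ basePts n (M₀.factorial * (w + 1) ^ M₀) ((P + 1) ^ M₀) (M₀ * (d + 1)),
      ∃ a < A, p a = x) (Δ : ℕ) :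
    Pool.Agent.Helper8.Occ.H1 (crv A p) 0
      (Dc {g : MvPolynomial (Fin n) ℚ | Fx (w + 1) (P + 1) (d + 1) g} Δ) M₀ := by
  intro M hM a ha J hdet
  apply Phi_of_aeval
  have h1 : ∀ i, Fx (w + 1) (P + 1) (d + 1) (a i) := by
    intro i
    obtain ⟨L, _, b, hb, hab⟩ := ha i
    rw [hab]
    exact Fx.pd hb L
  have h2 := (Fx.det a h1 J).mono
    (Nat.mul_le_mul (Nat.factorial_le hM) (Nat.pow_le_pow_right (Nat.succ_pos w) hM))
    (Nat.pow_le_pow_right (Nat.succ_pos P) hM) (Nat.mul_le_mul_right (d + 1) hM)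
  obtain ⟨x, hx, hx0⟩ := hit_few (Nat.one_le_pow _ _ (Nat.succ_pos P)) _ hdet h2
  obtain ⟨l, hl, rfl⟩ := hp x hx
  exact aeval_crv hl p _ hx0

end Pool.Agent.TWA
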