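import Pool.Agent.TWA.ShC

/-!
# TWA: the lowest homogeneous part of `f (1 + x)`
-/

set_option autoImplicit false

namespace Pool.Agent.TWA

open MvPolynomial Pool.Agent.AOI

variable {K : Type*} [Field K] [CharZero K] {n : ℕ}

omit [CharZero K] in
private theorem low_sh_ne (f : MvPolynomial (Fin n) K) (hf : f ≠ 0) :
    sh f (fun _ => (1 : K)) ≠ 0 := by
  intro h0
  apply hf
  have h1 : (aeval (fun i : Fin n => (X i - C 1 : MvPolynomial (Fin n) K)))
      (sh f (fun _ => (1 : K))) = f := by
    unfold sh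
    have h2 : ((aeval (fun i : Fin n => (X i - C 1 : MvPolynomial (Fin n) K))).comp
        (aeval (fun i : Fin n => (C 1 + X i : MvPolynomial (Fin n) K)))) =
        AlgHom.id K (MvPolynomial (Fin n) K) := by
      refine MvPolynomial.algHom_ext fun i => ?_
      rw [AlgHom.comp_apply, aeval_X, map_add, aeval_X, MvPolynomial.algHom_C, AlgHom.id_apply]
      simp
    exact congrArg (fun T : MvPolynomial (Fin n) K →ₐ[K] MvPolynomial (Fin n) K => T f) h2
  rw [h0, map_zero] at h1
  exact h1.symm

private theorem low_degree_update (a : Fin n →₀ ℕ) (i : Fin n) (j : ℕ) (hj : j < a i) :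
    (a.update i j).degree < a.degree := by
  rw [Finsupp.degree_eq_sum, Finsupp.degree_eq_sum]
  refine Finset.sum_lt_sum (fun k _ => ?_) ⟨i, Finset.mem_univ i, ?_⟩
  · by_cases hk : k = i
    · subst hk
      rw [Finsupp.coe_update, Function.update_self]
      exact hj.le
    · rw [Finsupp.coe_update, Function.update_of_ne hk]
  · rw [Finsupp.coe_update, Function.update_self]
    exact hj

theorem exists_lowest {P : ℕ} (f : MvPolynomial (Fin n) K) (hf : f ≠ 0)
    (hP : ∀ i, (f.support.image fun m => m i).card ≤ P) :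
    ∃ m ≤ P * n, homogeneousComponent m (sh f (fun _ => (1 : K))) ≠ 0 ∧
      (∀ l < m, homogeneousComponent l (sh f (fun _ => (1 : K))) = 0) ∧
      ∀ i, (homogeneousComponent m (sh f (fun _ => (1 : K)))).degreeOf i ≤ P := by
  classical
  obtain ⟨F, hF⟩ : ∃ F : MvPolynomial (Fin n) K, F = sh f (fun _ => (1 : K)) := ⟨_, rfl⟩
  have hF0 : F ≠ 0 := by rw [hF]; exact low_sh_ne f hf
  have hex : ∃ l, homogeneousComponent l F ≠ 0 := by
    by_contra hcon
    push Not at hcon
    apply hF0
    rw [← sum_homogeneousComponent F]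
    exact Finset.sum_eq_zero fun l _ => hcon l
  have hmin := fun l (hl : l < Nat.find hex) => not_not.1 (Nat.find_min hex hl)
  have hm := Nat.find_spec hex
  obtain ⟨m, hmd⟩ : ∃ m, m = Nat.find hex := ⟨_, rfl⟩
  rw [← hmd] at hm hmin
  have key : ∀ a ∈ (homogeneousComponent m F).support, a.degree = m ∧ ∀ i, a i < P := by
    intro a ha
    rw [mem_support_iff, coeff_homogeneousComponent] at ha
    have hdeg : a.degree = m := by
      by_contra hne
      rw [if_neg hne] at ha
      exact ha rfl
    rw [if_pos hdeg] at ha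
    refine ⟨hdeg, fun i => ?_⟩
    by_contra hge
    rw [not_lt] at hge
    rw [hF] at ha
    obtain ⟨j, hj, hc⟩ := exists_lt_coeff f i P (hP i) a ha
    rw [← hF] at hc
    have hlt : (a.update i j).degree < m := by
      rw [← hdeg]
      exact low_degree_update a i j (lt_of_lt_of_le hj hge)
    have h0 := congrArg (coeff (a.update i j)) (hmin _ hlt)
    rw [coeff_homogeneousComponent, if_pos rfl, coeff_zero] at h0
    exact hc h0
  rw [← hF]
  refine ⟨m, ?_, hm, hmin, fun i => ?_⟩
  · obtain ⟨a, ha⟩ := Finset.nonempty_iff_ne_empty.2 (fun h => hm (support_eq_empty.1 h))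
    obtain ⟨hdeg, hlt⟩ := key a ha
    rw [← hdeg, Finsupp.degree_eq_sum]
    calc ∑ i, a i ≤ ∑ _i : Fin n, P := Finset.sum_le_sum fun i _ => (hlt i).le
      _ = P * n := by rw [Finset.sum_const, Finset.card_univ, Fintype.card_fin, smul_eq_mul, mul_comm]
  · rw [degreeOf_le_iff]
    intro a ha
    exact ((key a ha).2 i).le

end Pool.Agent.TWA
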