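import Pool.Agent.TWA.Fin

/-!
# TWA: statement of Theorem W (becomes Results/MP_e2be99_lc/TopFaninAnyOrder.lean)
-/

set_option autoImplicit false

namespace Pool.Agent.TWA.TopFaninAnyOrder

open MvPolynomial Pool.Agent.TWA
open Pool.Agent.Helper8.Occ (OccFormula seeds)

theorem result (n κ k w P d Δ A R : ℕ) (hk : 1 ≤ k) (p : ℕ → Fin n → ℕ)
    (hp : ∀ x ∈ baseW n κ k w P d Δ, ∃ a < A, p a = x) :
    (baseW n κ k w P d Δ).card ≤ sizeW n κ k w P d Δ ∧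
    (hitW n A (seeds κ k P Δ) R p).card ≤ (R + 1) ^ (2 + 2 * seeds κ k P Δ) ∧
    ∀ (N m : ℕ) (g : Fin N → Fin m → MvPolynomial (Fin n) ℚ) (e : Fin N → Fin m → ℕ),
      (∀ i j, OccFormula κ (AOLeaf n k w P d) Δ (g i j)) →
      (∀ b : Finset (Fin N),
        AlgebraicIndepOn ℚ (fun i => ∏ j, g i j ^ e i j) (b : Set (Fin N)) → b.card ≤ k) →
      ∀ F ∈ Algebra.adjoin ℚ (Set.range fun i => ∏ j, g i j ^ e i j), F ≠ 0 →
      ∀ f : MvPolynomial (Fin n) ℚ, f ∣ F →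
        ((A + n) * f.totalDegree ≤ R ∨
          (∃ a : Fin N → ℚ, F = ∑ i, C (a i) * ∏ j, g i j ^ e i j) ∧
            2 ^ (N + 1) * ((A + n) * ∑ i, ∑ j, (g i j).totalDegree) + N ≤ R) →
        ∃ x ∈ hitW n A (seeds κ k P Δ) R p, eval x f ≠ 0 :=
  ⟨card_baseW n κ k w P d Δ, card_hitW n A _ R p, fun _ _ g e hg htr F hF hF0 f hf hR =>
    hit_W hk p hp g e hg htr F hF hF0 f hf hR⟩

end Pool.Agent.TWA.TopFaninAnyOrder
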