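import Pool.Agent.TWA.Few
import Pool.Agent.AOI.Defs

/-!
# TWA: coefficients of `f (1 + x)`
-/

set_option autoImplicit false

namespace Pool.Agent.TWA

open MvPolynomial Pool.Agent.AOI

variable {K : Type*} [Field K] {n : ℕ}

private theorem shc_prod (b : Fin n → ℕ) (m : Fin n →₀ ℕ) :
    coeff m (∏ v, (C (1 : K) + X v) ^ b v : MvPolynomial (Fin n) K) =
      ∏ v, ((b v).choose (m v) : K) := by
  classical
  have h1 : ∀ v, ((C (1 : K) + X v) ^ b v : MvPolynomial (Fin n) K) =
      ∑ j ∈ Finset.range (b v + 1), monomial (Finsupp.single v j) ((b v).choose j : K) := by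
    intro v
    rw [add_comm, add_pow]
    refine Finset.sum_congr rfl fun j _ => ?_
    rw [map_one, one_pow, mul_one, X_pow_eq_monomial, monomial_eq, monomial_eq]
    simp
    ring
  rw [Finset.prod_congr rfl fun v _ => h1 v, Finset.prod_univ_sum, coeff_sum]
  have h2 : ∀ p : Fin n → ℕ, (∏ v, monomial (Finsupp.single v (p v)) ((b v).choose (p v) : K) :
      MvPolynomial (Fin n) K) = monomial (Finsupp.equivFunOnFinite.symm p)
        (∏ v, ((b v).choose (p v) : K)) := by
    intro p
    have h3 : ∑ v, Finsupp.single v (p v) = Finsupp.equivFunOnFinite.symm p := by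
      ext v
      simp [Finsupp.finsetSum_apply, Finsupp.single_apply]
    rw [← monomial_sum_prod, h3]
  rw [Finset.sum_congr rfl fun p _ => by rw [h2 p, coeff_monomial]]
  by_cases hm : ∀ v, m v ≤ b v
  · rw [Finset.sum_eq_single (fun v => m v)]
    · rw [if_pos]
      ext v
      rfl
    · intro p _ hp
      rw [if_neg]
      intro h
      apply hp
      funext v
      rw [← h]
      rfl
    · intro h
      exfalso
      apply h
      rw [Fintype.mem_piFinset]
      intro v
      rw [Finset.mem_range]
      exact Nat.lt_succ_of_le (hm v)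
  · push Not at hm
    obtain ⟨v, hv⟩ := hm
    rw [Finset.prod_eq_zero (Finset.mem_univ v)
      (by rw [Nat.choose_eq_zero_of_lt hv, Nat.cast_zero])]
    refine Finset.sum_eq_zero fun p hp => ?_
    rw [if_neg]
    intro h
    rw [Fintype.mem_piFinset] at hp
    have h3 := hp v
    rw [Finset.mem_range] at h3
    have h4 : m v = p v := by
      rw [← h]
      rfl
    omega

theorem coeff_sh_one (f : MvPolynomial (Fin n) K) (m : Fin n →₀ ℕ) :
    coeff m (sh f (fun _ => (1 : K))) =
      ∑ b ∈ f.support, coeff b f * ∏ v, ((b v).choose (m v) : K) := by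
  unfold sh
  rw [aeval_def, eval₂_eq', coeff_sum]
  refine Finset.sum_congr rfl fun b _ => ?_
  rw [algebraMap_eq, coeff_C_mul, shc_prod]

theorem exists_lt_coeff [CharZero K] (f : MvPolynomial (Fin n) K) (i : Fin n) (P : ℕ)
    (hP : (f.support.image fun m => m i).card ≤ P) (m : Fin n →₀ ℕ)
    (hm : coeff m (sh f (fun _ => (1 : K))) ≠ 0) :
    ∃ j < P, coeff (m.update i j) (sh f (fun _ => (1 : K))) ≠ 0 := by
  classical
  have key : ∀ j : ℕ, coeff (m.update i j) (sh f (fun _ => (1 : K))) =
      ∑ e ∈ f.support.image (fun m => m i),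
        (∑ b ∈ f.support with b i = e, coeff b f *
          ∏ v ∈ Finset.univ.erase i, ((b v).choose (m v) : K)) * (e.choose j : K) := by
    intro j
    rw [coeff_sh_one, ← Finset.sum_fiberwise_of_maps_to
      (g := fun b : Fin n →₀ ℕ => b i) (t := f.support.image fun m => m i)
      (fun b hb => Finset.mem_image_of_mem _ hb)]
    refine Finset.sum_congr rfl fun e _ => ?_
    rw [Finset.sum_mul]
    refine Finset.sum_congr rfl fun b hb => ?_
    have hbe : b i = e := (Finset.mem_filter.1 hb).2
    rw [← Finset.mul_prod_erase Finset.univ _ (Finset.mem_univ i)]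
    have h1 : ∏ v ∈ Finset.univ.erase i, ((b v).choose ((m.update i j) v) : K) =
        ∏ v ∈ Finset.univ.erase i, ((b v).choose (m v) : K) := by
      refine Finset.prod_congr rfl fun v hv => ?_
      have hvi : v ≠ i := (Finset.mem_erase.1 hv).1
      rw [Finsupp.coe_update, Function.update_of_ne hvi]
    rw [h1, Finsupp.coe_update, Function.update_self, hbe]
    ring
  have hm' : m.update i (m i) = m := Finsupp.update_self m i
  rw [← hm', key (m i)] at hm
  obtain ⟨j, hj, hne⟩ := exists_lt_choose _ P hP _ (m i) hm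
  refine ⟨j, hj, ?_⟩
  rw [key j]
  exact hne

end Pool.Agent.TWA
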